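import Pool.Agent.H.MP_434b1a_gt.B

set_option autoImplicit false
open Cardinal Topology

namespace Pool.Agent.Results.MP_434b1a_gt.Iff

def Euc (n : ℕ) {M : Type} [TopologicalSpace M] (U : Set M) : Prop :=
  IsOpen U ∧ Nonempty (U ≃ₜ (Fin n → ℝ))

def ENH (n : ℕ) (M : Type) [TopologicalSpace M] : Prop :=
  ConnectedSpace M ∧ (∀ x : M, ∃ U, Euc n U ∧ x ∈ U) ∧
    ∀ x : M, ∃ y, y ≠ x ∧ ¬ ∃ U V : Set M, IsOpen U ∧ IsOpen V ∧ x ∈ U ∧ y ∈ V ∧ Disjoint U V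

noncomputable def covNum {M : Type} (p : Set M → Prop) : Cardinal :=
  sInf {c | ∃ S : Set (Set M), (∀ U ∈ S, p U) ∧ ⋃₀ S = Set.univ ∧ #S = c}

theorem result :
    (∃ (n : ℕ) (M : Type) (_ : TopologicalSpace M), ENH n M ∧
      covNum (fun U : Set M => IsOpen U ∧ T2Space U) < covNum (fun U : Set M => Euc n U)) ↔
    ∃ (n : ℕ) (T : Set (Set (Fin n → ℝ))), #T < continuum ∧ (∀ N ∈ T, IsNowhereDense N) ∧
      ⋃₀ T = Set.univ := by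
  constructor
  · rintro ⟨n, M, _, ⟨h1, h2, h3⟩, h⟩
    have hM : ∀ x : M, ∃ e : (Fin n → ℝ) → M, IsOpenEmbedding e ∧ x ∈ Set.range e := by
      intro x
      obtain ⟨U, ⟨a, ⟨b⟩⟩, c⟩ := h2 x
      exact ⟨Subtype.val ∘ b.symm, a.isOpenEmbedding_subtypeVal.comp b.symm.isOpenEmbedding,
        b ⟨x, c⟩, by simp⟩
    choose U u1 u2 using h2
    have u3 : ⋃₀ Set.range U = Set.univ := Set.eq_univ_of_forall fun x => ⟨_, ⟨x, rfl⟩, u2 x⟩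
    obtain ⟨S, s1, s2, s3⟩ := csInf_mem (s := {c | ∃ S : Set (Set M),
      (∀ U ∈ S, IsOpen U ∧ T2Space U) ∧ ⋃₀ S = Set.univ ∧ #S = c}) ⟨_, Set.range U, by
        rintro _ ⟨x, rfl⟩
        exact ⟨(u1 x).1, (u1 x).2.some.symm.t2Space⟩, u3, rfl⟩
    obtain ⟨e, he, -⟩ := hM h1.toNonempty.some
    obtain ⟨T, t1, t2, t3⟩ := H.MP_434b1a_gt.nwd_cover e he h3 S s1 s2
    refine ⟨n, T, t1.trans_lt (lt_of_not_ge fun hc => h.not_ge ?_), t2, t3⟩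
    refine le_trans (csInf_le' ⟨Set.range U, ?_, u3, rfl⟩) (mk_range_le.trans
      ((H.MP_434b1a_gt.card_le hM S s1 s2 hc).trans s3.le))
    rintro _ ⟨x, rfl⟩
    exact u1 x
  · rintro ⟨n, T, t1, t2, t3⟩
    obtain ⟨M, _, h1, h2, h3, ⟨S, s1, s2, s3⟩, h4⟩ := H.MP_434b1a_gt.exists_ex n T t1 t2 t3
    have h5 : ∀ x : M, ∃ U, Euc (n + 2) U ∧ x ∈ U := fun x => by
      obtain ⟨e, he, hx⟩ := h2 x
      exact ⟨_, ⟨he.isOpen_range, ⟨he.isEmbedding.toHomeomorph.symm⟩⟩, hx⟩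
    refine ⟨n + 2, M, _, ⟨h1, h5, h3⟩, lt_of_le_of_lt (csInf_le' ⟨S, s1, s2, rfl⟩)
      (s3.trans_le (le_csInf ?_ ?_))⟩
    · choose U u1 u2 using h5
      exact ⟨_, Set.range U, by rintro _ ⟨x, rfl⟩; exact u1 x,
        Set.eq_univ_of_forall fun x => ⟨_, ⟨x, rfl⟩, u2 x⟩, rfl⟩
    · rintro _ ⟨S', a, b, rfl⟩
      exact h4 S' (fun U hU => (a U hU).2.some.symm.surjective.denseRange.separableSpace
        (a U hU).2.some.symm.continuous) b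

end Pool.Agent.Results.MP_434b1a_gt.Iff
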